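import Mathlib

/-!
Sum over all subsets of a product of geometric sums of characters (for `S_GENb`).
-/

set_option autoImplicit false

namespace Pool.Agent.Z927

open Finset

section
variable {ι : Type*} [Fintype ι] [DecidableEq ι]

/-- the exponent vectors whose character is trivial -/
def TT (V : ι → ℕ) (e : ι → ℕ → ℤ) (P : Finset ℕ) : Finset (ι → ℕ) :=
  (Fintype.piFinset fun i => range (V i + 1)).filter fun x => ∀ p ∈ P, ∏ i, (e i p) ^ (x i) = 1

lemma pm_prod {α : Type*} (s : Finset α) (f : α → ℤ) (h : ∀ i ∈ s, f i = 1 ∨ f i = -1) :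
    ∏ i ∈ s, f i = 1 ∨ ∏ i ∈ s, f i = -1 := by
  classical
  induction s using Finset.induction_on with
  | empty => left; simp
  | insert a t ha ih =>
    rw [Finset.prod_insert ha]
    rcases h a (Finset.mem_insert_self _ _) with h1 | h1 <;>
    rcases ih (fun i hi => h i (Finset.mem_insert_of_mem hi)) with h2 | h2 <;>
    rw [h1, h2] <;> norm_num

lemma pm_pow (x : ℤ) (h : x = 1 ∨ x = -1) (n : ℕ) : x ^ n = 1 ∨ x ^ n = -1 := by
  rcases h with h | h
  · left; rw [h, one_pow]
  · rw [h]; exact neg_one_pow_eq_or ℤ n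

lemma abs_sum (V : ι → ℕ) (s : ι → ℤ) (e : ι → ℕ → ℤ) (P : Finset ℕ)
    (he : ∀ i, ∀ p ∈ P, e i p = 1 ∨ e i p = -1) :
    ∑ D1 ∈ P.powerset, ∏ i, ∑ j ∈ range (V i + 1), (s i * ∏ p ∈ D1, e i p) ^ j =
      2 ^ P.card * ∑ x ∈ TT V e P, ∏ i, (s i) ^ (x i) := by
  have h1 : ∀ D1 ∈ P.powerset, ∏ i, ∑ j ∈ range (V i + 1), (s i * ∏ p ∈ D1, e i p) ^ j =
      ∑ x ∈ Fintype.piFinset fun i => range (V i + 1),
        (∏ i, (s i) ^ (x i)) * ∏ p ∈ D1, ∏ i, (e i p) ^ (x i) := by
    intro D1 _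
    rw [Finset.prod_univ_sum]
    refine Finset.sum_congr rfl fun x _ => ?_
    rw [Finset.prod_comm, ← Finset.prod_mul_distrib]
    refine Finset.prod_congr rfl fun i _ => ?_
    rw [mul_pow, ← Finset.prod_pow]
  rw [Finset.sum_congr rfl h1, Finset.sum_comm]
  have h2 : ∀ x ∈ Fintype.piFinset fun i => range (V i + 1),
      ∑ D1 ∈ P.powerset, (∏ i, (s i) ^ (x i)) * ∏ p ∈ D1, ∏ i, (e i p) ^ (x i) =
      if ∀ p ∈ P, ∏ i, (e i p) ^ (x i) = 1 then 2 ^ P.card * ∏ i, (s i) ^ (x i) else 0 := by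
    intro x _
    rw [← Finset.mul_sum, ← Finset.prod_one_add]
    have hE : ∀ p ∈ P, ∏ i, (e i p) ^ (x i) = 1 ∨ ∏ i, (e i p) ^ (x i) = -1 := fun p hp =>
      pm_prod _ _ fun i _ => pm_pow _ (he i p hp) _
    split_ifs with h
    · rw [Finset.prod_congr rfl (fun p hp => by rw [h p hp] : ∀ p ∈ P,
        1 + ∏ i, (e i p) ^ (x i) = 1 + 1), Finset.prod_const]
      norm_num
      ring
    · push Not at h
      obtain ⟨p, hp, hne⟩ := h
      have : ∏ i, (e i p) ^ (x i) = -1 := (hE p hp).resolve_left hne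
      rw [Finset.prod_eq_zero hp (by rw [this]; norm_num), mul_zero]
  rw [Finset.sum_congr rfl h2, ← Finset.sum_filter, ← Finset.mul_sum, TT]

lemma card_parity (V : ι → ℕ) (e : ι → ℕ → ℤ) (P : Finset ℕ)
    (he : ∀ i, ∀ p ∈ P, e i p = 1 ∨ e i p = -1)
    (hV : ∀ p ∈ P, ∏ i, (e i p) ^ (V i) = 1) :
    Odd (TT V e P).card ↔ ((∀ i, Even (V i)) ∧ ∀ p ∈ P, ∏ i, (e i p) ^ (V i / 2) = 1) := by
  have hmem : ∀ x, x ∈ TT V e P ↔ (∀ i, x i ≤ V i) ∧ ∀ p ∈ P, ∏ i, (e i p) ^ (x i) = 1 := by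
    intro x
    rw [TT, Finset.mem_filter, Fintype.mem_piFinset]
    simp only [Finset.mem_range, Nat.lt_succ_iff]
  -- the involution
  have hinv : ∀ x ∈ TT V e P, (fun i => V i - x i) ∈ TT V e P := by
    intro x hx
    rw [hmem] at hx ⊢
    refine ⟨fun i => Nat.sub_le _ _, fun p hp => ?_⟩
    have h1 : (∏ i, (e i p) ^ (V i - x i)) * ∏ i, (e i p) ^ (x i) = 1 := by
      rw [← Finset.prod_mul_distrib, ← hV p hp]
      refine Finset.prod_congr rfl fun i _ => ?_
      rw [← pow_add, Nat.sub_add_cancel (hx.1 i)]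
    rwa [hx.2 p hp, mul_one] at h1
  set F := (TT V e P).filter fun x => (fun i => V i - x i) = x with hF
  have hpar : ((TT V e P).card : ZMod 2) = (F.card : ZMod 2) := by
    rw [← Finset.card_filter_add_card_filter_not (s := TT V e P)
      (fun x => (fun i => V i - x i) = x)]
    push_cast
    rw [← hF]
    have : (((TT V e P).filter fun x => ¬ (fun i => V i - x i) = x).card : ZMod 2) = 0 := by
      rw [Finset.card_eq_sum_ones]
      push_cast
      refine Finset.sum_involution (fun x _ => fun i => V i - x i) ?_ ?_ ?_ ?_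
      · intro x _; decide
      · intro x hx _
        exact (Finset.mem_filter.1 hx).2
      · intro x hx
        rw [Finset.mem_filter] at hx ⊢
        refine ⟨hinv x hx.1, fun h => hx.2 ?_⟩
        have hx1 := ((hmem x).1 hx.1).1
        funext i
        have := congrFun h i
        have h2 := hx1 i
        simp only at this ⊢
        omega
      · intro x hx
        have hx1 := ((hmem x).1 (Finset.mem_filter.1 hx).1).1
        funext i
        have h2 := hx1 i
        simp only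
        omega
    rw [this, add_zero]
  have hodd : Odd (TT V e P).card ↔ Odd F.card := by
    rw [← ZMod.natCast_eq_one_iff_odd, ← ZMod.natCast_eq_one_iff_odd, hpar]
  rw [hodd]
  constructor
  · intro h
    have hpos : F.Nonempty := by
      rw [← Finset.card_pos]
      exact h.pos
    obtain ⟨x, hx⟩ := hpos
    rw [hF, Finset.mem_filter, hmem] at hx
    obtain ⟨⟨h1, h2⟩, h3⟩ := hx
    have h4 : ∀ i, V i = 2 * x i := by
      intro i
      have k1 : V i - x i = x i := congrFun h3 i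
      have k2 := h1 i
      omega
    refine ⟨fun i => ⟨x i, by rw [h4 i]; ring⟩, fun p hp => ?_⟩
    rw [← h2 p hp]
    refine Finset.prod_congr rfl fun i _ => ?_
    rw [h4 i, Nat.mul_div_cancel_left _ (by norm_num)]
  · rintro ⟨h1, h2⟩
    have : F = {fun i => V i / 2} := by
      ext x
      rw [hF, Finset.mem_filter, hmem, Finset.mem_singleton]
      constructor
      · rintro ⟨⟨h3, -⟩, h4⟩
        funext i
        have k1 : V i - x i = x i := congrFun h4 i
        have k2 := h3 i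
        show x i = V i / 2
        omega
      · rintro rfl
        refine ⟨⟨fun i => Nat.div_le_self _ _, h2⟩, ?_⟩
        funext i
        have := Nat.div_mul_cancel (even_iff_two_dvd.1 (h1 i))
        show V i - V i / 2 = V i / 2
        omega
    rw [this, Finset.card_singleton]
    exact odd_one

lemma sum_parity {α : Type*} (T : Finset α) (f : α → ℤ) (h : ∀ x ∈ T, f x = 1 ∨ f x = -1) :
    Odd (∑ x ∈ T, f x) ↔ Odd T.card := by
  classical
  have : ((∑ x ∈ T, f x : ℤ) : ZMod 2) = (T.card : ZMod 2) := by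
    push_cast
    rw [Finset.card_eq_sum_ones]
    push_cast
    refine Finset.sum_congr rfl fun x hx => ?_
    rcases h x hx with h1 | h1 <;> rw [h1] <;> decide
  rw [← ZMod.natCast_eq_one_iff_odd, ← ZMod.intCast_eq_one_iff_odd, this]

/-- Sum over all subsets of a product of geometric sums of quadratic characters. -/
theorem abs_main (V : ι → ℕ) (s : ι → ℤ) (e : ι → ℕ → ℤ) (P : Finset ℕ)
    (hs : ∀ i, s i = 1 ∨ s i = -1)
    (he : ∀ i, ∀ p ∈ P, e i p = 1 ∨ e i p = -1)
    (hV : ∀ p ∈ P, ∏ i, (e i p) ^ (V i) = 1) :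
    ∃ n : ℤ, ∑ D1 ∈ P.powerset, ∏ i, ∑ j ∈ range (V i + 1), (s i * ∏ p ∈ D1, e i p) ^ j =
      2 ^ P.card * n ∧
      (Odd n ↔ ((∀ i, Even (V i)) ∧ ∀ p ∈ P, ∏ i, (e i p) ^ (V i / 2) = 1)) := by
  refine ⟨_, abs_sum V s e P he, ?_⟩
  rw [sum_parity _ _ (fun x _ => pm_prod _ _ fun i _ => pm_pow _ (hs i) _),
    card_parity V e P he hV]

end

end Pool.Agent.Z927
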