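import Pool.Agent.Z700.Defs
import Pool.Agent.Z927.Abs

/-!
`S_GENb`: the sum over the genus characters for a fixed `b`.
-/

set_option autoImplicit false

namespace Pool.Agent.Z927

open Finset Pool.Agent.Z700

lemma fam_facts {p : ℕ} (hp : Fam p) :
    p.Prime ∧ p ≠ 2 ∧ p ≠ 3 ∧ p ≠ 7 ∧ p % 4 = 1 ∧ p % 3 = 1 ∧ Odd p := by
  obtain ⟨h1, h2, h3⟩ := hp
  refine ⟨h1, ?_, ?_, ?_, ?_, ?_, Nat.odd_iff.2 ?_⟩ <;> omega

lemma fam_neg_one {p : ℕ} (hp : Fam p) : jacobiSym (-1) p = 1 := by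
  obtain ⟨h1, h2, h3, h4, h5, h6, h7⟩ := fam_facts hp
  rw [jacobiSym.at_neg_one h7]
  exact ZMod.χ₄_nat_one_mod_four h5

lemma fam_two {p : ℕ} (hp : Fam p) : jacobiSym 2 p = 1 := by
  obtain ⟨h1, h2, h3, h4, h5, h6, h7⟩ := fam_facts hp
  rw [jacobiSym.at_two h7]
  have h8 : p % 8 = 1 := by have := hp.2.1; omega
  rw [ZMod.χ₈_nat_eq_if_mod_eight, h8]
  have : ¬ p % 2 = 0 := by omega
  simp [this]

lemma fam_three {p : ℕ} (hp : Fam p) : jacobiSym 3 p = 1 := by
  obtain ⟨h1, h2, h3, h4, h5, h6, h7⟩ := fam_facts hp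
  have e := jacobiSym.quadratic_reciprocity_one_mod_four h5 (b := 3) (by decide)
  have e2 : jacobiSym (p : ℤ) 3 = 1 := by
    rw [jacobiSym.mod_left]
    have : (p : ℤ) % (3 : ℕ) = 1 := by push_cast; omega
    rw [this]
    exact jacobiSym.one_left 3
  rw [e2] at e
  exact_mod_cast e.symm

lemma fam_seven {p : ℕ} (hp : Fam p) : jacobiSym 7 p = 1 := by
  obtain ⟨h1, h2, h3, h4, h5, h6, h7⟩ := fam_facts hp
  have e := jacobiSym.quadratic_reciprocity_one_mod_four h5 (b := 7) (by decide)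
  have e2 : jacobiSym (p : ℤ) 7 = 1 := by
    rw [jacobiSym.mod_left]
    have : (p : ℤ) % (7 : ℕ) = 1 ∨ (p : ℤ) % (7 : ℕ) = 2 ∨ (p : ℤ) % (7 : ℕ) = 4 := by
      have := hp.2.2; push_cast; omega
    rcases this with h | h | h <;> rw [h]
    · exact jacobiSym.one_left 7
    · norm_num
    · norm_num
  rw [e2] at e
  exact_mod_cast e.symm

lemma js_prod_left {α : Type*} (s : Finset α) (f : α → ℤ) (b : ℕ) :
    jacobiSym (∏ i ∈ s, f i) b = ∏ i ∈ s, jacobiSym (f i) b := by
  classical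
  induction s using Finset.induction_on with
  | empty => simp
  | insert a t ha ih => rw [Finset.prod_insert ha, Finset.prod_insert ha, jacobiSym.mul_left, ih]

lemma js_pr (A : Finset ℕ) (l : ℕ) : jacobiSym (pr A : ℤ) l = ∏ p ∈ A, jacobiSym (p : ℤ) l := by
  rw [pr]
  push_cast
  exact js_prod_left _ _ _

lemma pr_erase {A : Finset ℕ} {p : ℕ} (hp : p ∈ A) : pr A = p * pr (A.erase p) := by
  rw [pr, pr, Finset.mul_prod_erase A (fun p => p) hp]

lemma pr_coprime {A : Finset ℕ} (hA : ∀ p ∈ A, p.Prime) {q : ℕ} (hq : q.Prime) (h : q ∉ A) :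
    Nat.Coprime (pr A) q := by
  rw [pr]
  refine Nat.Coprime.prod_left fun i hi => ?_
  rw [Nat.coprime_primes (hA i hi) hq]
  rintro rfl
  exact h hi

/-- the characters -/
def ee (P : Finset ℕ) (l p : ℕ) : ℤ :=
  if l = p then jacobiSym (pr (P.erase p) : ℤ) p else jacobiSym (p : ℤ) l

/-- the primes of `D` different from `2`, `7`, `3` -/
def S3 (D : ℕ) : Finset ℕ := ((D.primeFactors.erase 2).erase 7).erase 3

lemma mem_S3 {D l : ℕ} (hl : l ∈ S3 D) : l ≠ 3 ∧ l ≠ 7 ∧ l ≠ 2 ∧ l.Prime ∧ l ∣ D := by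
  rw [S3, Finset.mem_erase, Finset.mem_erase, Finset.mem_erase, Nat.mem_primeFactors] at hl
  exact ⟨hl.1, hl.2.1, hl.2.2.1, hl.2.2.2.1, hl.2.2.2.2.1⟩

lemma mem_S3' {D l : ℕ} (h0 : D ≠ 0) (h3 : l ≠ 3) (h7 : l ≠ 7) (h2 : l ≠ 2) (hp : l.Prime)
    (hD : l ∣ D) : l ∈ S3 D := by
  rw [S3, Finset.mem_erase, Finset.mem_erase, Finset.mem_erase, Nat.mem_primeFactors]
  exact ⟨h3, h7, h2, hp, hD, h0⟩

lemma js_unit {a b : ℕ} (h : Nat.Coprime a b) : jacobiSym (a : ℤ) b = 1 ∨ jacobiSym (a : ℤ) b = -1 :=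
  jacobiSym.eq_one_or_neg_one (by simpa using h)

lemma ee_unit {P : Finset ℕ} (hP : ∀ p ∈ P, Fam p) {D l : ℕ} (hl : l ∈ S3 D) {p : ℕ} (hp : p ∈ P) :
    ee P l p = 1 ∨ ee P l p = -1 := by
  obtain ⟨-, -, -, hlp, -⟩ := mem_S3 hl
  have hpp := (hP p hp).1
  rw [ee]
  split_ifs with h
  · exact js_unit (pr_coprime (fun q hq => (hP q (Finset.mem_of_mem_erase hq)).1) hpp
      (Finset.notMem_erase _ _))
  · exact js_unit ((Nat.coprime_primes hpp hlp).2 (fun e => h e.symm))

lemma s_unit {D l : ℕ} (hl : l ∈ S3 D) : jacobiSym (-3) l = 1 ∨ jacobiSym (-3) l = -1 := by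
  obtain ⟨h3, -, -, hlp, -⟩ := mem_S3 hl
  apply jacobiSym.eq_one_or_neg_one
  have : Nat.Coprime 3 l := (Nat.coprime_primes Nat.prime_three hlp).2 (fun e => h3 e.symm)
  simpa [Int.gcd] using this

lemma erase_mul {M : Type*} [CommMonoid M] (s : Finset ℕ) (f : ℕ → M) (q : ℕ)
    (h : q ∉ s → f q = 1) : f q * ∏ l ∈ s.erase q, f l = ∏ l ∈ s, f l := by
  by_cases hq : q ∈ s
  · exact Finset.mul_prod_erase s f hq
  · rw [h hq, one_mul, Finset.erase_eq_of_notMem hq]

/-- the decomposition of `D` -/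
lemma D_decomp {D : ℕ} (hD : 0 < D) :
    D = 2 ^ D.factorization 2 * (7 ^ D.factorization 7 * (3 ^ D.factorization 3 *
      ∏ l ∈ S3 D, l ^ D.factorization l)) := by
  have h0 : ∏ l ∈ D.primeFactors, l ^ D.factorization l = D :=
    Nat.prod_factorization_pow_eq_self hD.ne'
  have hz : ∀ q, q.Prime → q ∉ D.primeFactors → D.factorization q = 0 := by
    intro q hq h
    rw [Nat.mem_primeFactors] at h
    apply Nat.factorization_eq_zero_of_not_dvd
    intro hd
    exact h ⟨hq, hd, hD.ne'⟩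
  rw [S3, erase_mul _ (fun l => l ^ D.factorization l) 3, erase_mul _
    (fun l => l ^ D.factorization l) 7, erase_mul _ (fun l => l ^ D.factorization l) 2, h0]
  · intro h; rw [hz 2 Nat.prime_two h, pow_zero]
  · intro h
    rw [hz 7 (by norm_num) (fun h' => h (Finset.mem_erase.2 ⟨by norm_num, h'⟩)), pow_zero]
  · intro h
    rw [hz 3 (by norm_num) (fun h' => h (Finset.mem_erase.2 ⟨by norm_num,
      Finset.mem_erase.2 ⟨by norm_num, h'⟩⟩)), pow_zero]

/-- primes of the family dividing `D` divide it exactly once -/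
lemma fam_div {P : Finset ℕ} (hP : ∀ p ∈ P, Fam p) {b : ℤ} {D : ℕ} (hD : 0 < D)
    (hDD : (D : ℤ) = 9 * (pr P : ℤ) - b ^ 2) {p : ℕ} (hp : p ∈ P) (hpD : p ∣ D) :
    ∃ D' : ℕ, D = p * D' ∧ ¬ p ∣ D' ∧ D.factorization p = 1 ∧
      jacobiSym (D' : ℤ) p = jacobiSym (pr (P.erase p) : ℤ) p := by
  have hpp := (hP p hp).1
  obtain ⟨D', rfl⟩ := hpD
  have e1 : (pr P : ℤ) = p * (pr (P.erase p) : ℤ) := by
    rw [pr_erase hp]; push_cast; ring
  have hb : (p : ℤ) ∣ b := by
    have : (p : ℤ) ∣ b ^ 2 := by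
      refine ⟨9 * pr (P.erase p) - D', ?_⟩
      push_cast at hDD
      rw [e1] at hDD
      linarith
    exact (Nat.prime_iff_prime_int.1 hpp).dvd_of_dvd_pow this
  obtain ⟨c, rfl⟩ := hb
  have hp0 : (p : ℤ) ≠ 0 := by exact_mod_cast hpp.ne_zero
  have e2 : (D' : ℤ) = 9 * pr (P.erase p) - p * c ^ 2 := by
    push_cast at hDD
    rw [e1] at hDD
    have : (p : ℤ) * D' = p * (9 * pr (P.erase p) - p * c ^ 2) := by linarith
    exact mul_left_cancel₀ hp0 this
  have hcop : Nat.Coprime (pr (P.erase p)) p :=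
    pr_coprime (fun q hq => (hP q (Finset.mem_of_mem_erase hq)).1) hpp (Finset.notMem_erase _ _)
  have h3 := (fam_facts (hP p hp)).2.2.1
  have hcop9 : Nat.Coprime 9 p := by
    have : Nat.Coprime 3 p := (Nat.coprime_primes Nat.prime_three hpp).2 (fun e => h3 e.symm)
    exact Nat.Coprime.pow_left 2 this
  have hn : ¬ p ∣ D' := by
    intro h
    have h1 : (p : ℤ) ∣ 9 * pr (P.erase p) := by
      have : (9 : ℤ) * pr (P.erase p) = D' + p * c ^ 2 := by rw [e2]; ring
      rw [this]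
      exact dvd_add (by exact_mod_cast h) (Dvd.intro _ rfl)
    have h2 : p ∣ 9 * pr (P.erase p) := by exact_mod_cast h1
    have h4 : Nat.Coprime p (9 * pr (P.erase p)) := (Nat.Coprime.mul_left hcop9 hcop).symm
    have := Nat.Coprime.eq_one_of_dvd h4 h2
    exact hpp.one_lt.ne' this
  refine ⟨D', rfl, hn, ?_, ?_⟩
  · have hD' : D' ≠ 0 := by
      rintro rfl
      simp at hD
    rw [Nat.factorization_mul hpp.ne_zero hD', Finsupp.add_apply, hpp.factorization_self,
      Nat.factorization_eq_zero_of_not_dvd hn]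
  · have h5 : (D' : ℤ) % p = (9 * pr (P.erase p)) % p := by
      rw [e2, Int.sub_mul_emod_self_left]
    rw [jacobiSym.mod_left' h5, jacobiSym.mul_left]
    have : jacobiSym 9 p = 1 := by
      have : (9 : ℤ) = 3 ^ 2 := by norm_num
      rw [this, jacobiSym.pow_left, fam_three (hP p hp), one_pow]
    rw [this, one_mul]

/-- the local factor as a geometric sum -/
lemma fac_eq {P : Finset ℕ} (hP : ∀ p ∈ P, Fam p) {b : ℤ} {D : ℕ} (hD : 0 < D)
    (hDD : (D : ℤ) = 9 * (pr P : ℤ) - b ^ 2) {l : ℕ} (hl : l ∈ S3 D) {D1 : Finset ℕ}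
    (h1 : D1 ⊆ P) :
    fac (3 * pr D1) D l = ∑ j ∈ range (D.factorization l + 1),
      (jacobiSym (-3) l * ∏ p ∈ D1, ee P l p) ^ j := by
  obtain ⟨h3, h7, h2, hlp, hlD⟩ := mem_S3 hl
  by_cases hd : l ∈ D1
  · obtain ⟨D', hD1, hD2, hD3, hD4⟩ := fam_div hP hD hDD (h1 hd) hlD
    have e1 : 3 * pr D1 = l * (3 * pr (D1.erase l)) := by rw [pr_erase hd]; ring
    have hdiv : l ∣ 3 * pr D1 := by rw [e1]; exact Dvd.intro _ rfl
    rw [fac, if_pos hdiv, hD3, hh, hD3, if_neg (by decide)]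
    have e2 : 3 * pr D1 / l = 3 * pr (D1.erase l) := by
      rw [e1, Nat.mul_div_cancel_left _ hlp.pos]
    have e3 : D / l ^ 1 = D' := by rw [pow_one, hD1, Nat.mul_div_cancel_left _ hlp.pos]
    rw [e2, e3, Finset.sum_range_succ, Finset.sum_range_one, pow_zero, pow_one]
    congr 1
    have e4 : (-((3 * pr (D1.erase l) * D' : ℕ) : ℤ)) = (-3) * (pr (D1.erase l) : ℤ) * (D' : ℤ) := by
      push_cast; ring
    rw [e4, jacobiSym.mul_left, jacobiSym.mul_left, hD4, js_pr (D1.erase l),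
      ← Finset.mul_prod_erase D1 (fun p => ee P l p) hd]
    have e5 : ee P l l = jacobiSym (pr (P.erase l) : ℤ) l := by rw [ee, if_pos rfl]
    have e6 : ∏ p ∈ D1.erase l, ee P l p = ∏ p ∈ D1.erase l, jacobiSym (p : ℤ) l := by
      refine Finset.prod_congr rfl fun p hp => ?_
      rw [ee, if_neg]
      rintro rfl
      exact (Finset.mem_erase.1 hp).1 rfl
    rw [e5, e6]
    ring
  · have hdiv : ¬ l ∣ 3 * pr D1 := by
      intro h
      have c1 : Nat.Coprime (pr D1) l := pr_coprime (fun q hq => (hP q (h1 hq)).1) hlp hd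
      have c2 : Nat.Coprime 3 l := (Nat.coprime_primes Nat.prime_three hlp).2 (fun e => h3 e.symm)
      exact hlp.one_lt.ne' (Nat.Coprime.eq_one_of_dvd (Nat.Coprime.mul_left c2 c1).symm h)
    rw [fac, if_neg hdiv]
    refine Finset.sum_congr rfl fun j _ => ?_
    congr 1
    have e4 : (-((3 * pr D1 : ℕ) : ℤ)) = (-3) * (pr D1 : ℤ) := by push_cast; ring
    rw [e4, jacobiSym.mul_left, js_pr]
    congr 1
    refine Finset.prod_congr rfl fun p hp => ?_
    rw [ee, if_neg]
    rintro rfl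
    exact hd hp

lemma js_swap {p l : ℕ} (hp : Fam p) (hl : Odd l) : jacobiSym (p : ℤ) l = jacobiSym (l : ℤ) p :=
  jacobiSym.quadratic_reciprocity_one_mod_four (fam_facts hp).2.2.2.2.1 hl

/-- the total character is trivial -/
lemma ee_total {P : Finset ℕ} (hP : ∀ p ∈ P, Fam p) {b : ℤ} {D : ℕ} (hD : 0 < D)
    (hDD : (D : ℤ) = 9 * (pr P : ℤ) - b ^ 2) {p : ℕ} (hp : p ∈ P) :
    ∏ l ∈ S3 D, (ee P l p) ^ (D.factorization l) = 1 := by
  have hF := hP p hp
  have hpp := hF.1
  have hodd : ∀ l ∈ S3 D, Odd l := by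
    intro l hl
    obtain ⟨-, -, h2, hlp, -⟩ := mem_S3 hl
    exact hlp.odd_of_ne_two h2
  have hsw : ∀ s : Finset ℕ, s ⊆ S3 D → p ∉ s → ∏ l ∈ s, (ee P l p) ^ (D.factorization l) =
      jacobiSym ((∏ l ∈ s, l ^ D.factorization l : ℕ) : ℤ) p := by
    intro s hs hps
    push_cast
    rw [js_prod_left]
    refine Finset.prod_congr rfl fun l hl => ?_
    rw [jacobiSym.pow_left, ee, if_neg, js_swap hF (hodd l (hs hl))]
    rintro rfl
    exact hps hl
  have hdec := D_decomp hD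
  by_cases hpD : p ∣ D
  · obtain ⟨D', hD1, hD2, hD3, hD4⟩ := fam_div hP hD hDD hp hpD
    have hpS : p ∈ S3 D := mem_S3' hD.ne' (fam_facts hF).2.2.1 (fam_facts hF).2.2.2.1
      (fam_facts hF).2.1 hpp hpD
    rw [← Finset.mul_prod_erase (S3 D) (fun l => (ee P l p) ^ (D.factorization l)) hpS,
      hsw _ (Finset.erase_subset _ _) (Finset.notMem_erase _ _), hD3, pow_one]
    have e0 : ee P p p = jacobiSym (pr (P.erase p) : ℤ) p := by rw [ee, if_pos rfl]
    have e1 : D' = 2 ^ D.factorization 2 * (7 ^ D.factorization 7 * (3 ^ D.factorization 3 *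
        ∏ l ∈ (S3 D).erase p, l ^ D.factorization l)) := by
      have h5 : ∏ l ∈ S3 D, l ^ D.factorization l =
          p * ∏ l ∈ (S3 D).erase p, l ^ D.factorization l := by
        rw [← Finset.mul_prod_erase (S3 D) (fun l => l ^ (D.factorization l)) hpS, hD3, pow_one]
      rw [h5] at hdec
      apply Nat.eq_of_mul_eq_mul_left hpp.pos
      rw [← hD1]
      conv_lhs => rw [hdec]
      ring
    have e2 : jacobiSym (D' : ℤ) p =
        jacobiSym ((∏ l ∈ (S3 D).erase p, l ^ D.factorization l : ℕ) : ℤ) p := by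
      have : (D' : ℤ) = 2 ^ D.factorization 2 * (7 ^ D.factorization 7 * (3 ^ D.factorization 3 *
        ((∏ l ∈ (S3 D).erase p, l ^ D.factorization l : ℕ) : ℤ))) := by
        conv_lhs => rw [e1]
        push_cast
        ring
      rw [this, jacobiSym.mul_left, jacobiSym.mul_left, jacobiSym.mul_left, jacobiSym.pow_left,
        jacobiSym.pow_left, jacobiSym.pow_left, fam_two hF, fam_three hF, fam_seven hF]
      simp only [one_pow, one_mul]
    rw [e0, ← e2, hD4]
    have hu := js_unit (pr_coprime (A := P.erase p) (fun q hq => (hP q (Finset.mem_of_mem_erase hq)).1)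
      hpp (Finset.notMem_erase _ _))
    rcases hu with h | h <;> rw [h] <;> norm_num
  · have hpS : p ∉ S3 D := fun h => hpD (mem_S3 h).2.2.2.2
    rw [hsw _ (Finset.Subset.refl _) hpS]
    have e2 : jacobiSym (D : ℤ) p =
        jacobiSym ((∏ l ∈ S3 D, l ^ D.factorization l : ℕ) : ℤ) p := by
      have : (D : ℤ) = 2 ^ D.factorization 2 * (7 ^ D.factorization 7 * (3 ^ D.factorization 3 *
        ((∏ l ∈ S3 D, l ^ D.factorization l : ℕ) : ℤ))) := by
        conv_lhs => rw [hdec]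
        push_cast
        ring
      rw [this, jacobiSym.mul_left, jacobiSym.mul_left, jacobiSym.mul_left, jacobiSym.pow_left,
        jacobiSym.pow_left, jacobiSym.pow_left, fam_two hF, fam_three hF, fam_seven hF]
      simp only [one_pow, one_mul]
    rw [← e2]
    have e1 : (pr P : ℤ) = p * (pr (P.erase p) : ℤ) := by
      rw [pr_erase hp]; push_cast; ring
    have hpb : ¬ (p : ℤ) ∣ b := by
      rintro ⟨c, rfl⟩
      apply hpD
      have : (p : ℤ) ∣ D := by
        rw [hDD, e1]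
        exact ⟨9 * pr (P.erase p) - p * c ^ 2, by ring⟩
      exact_mod_cast this
    have e3 : (D : ℤ) % p = (-1 * b ^ 2) % p := by
      rw [hDD, e1]
      have : 9 * ((p : ℤ) * (pr (P.erase p) : ℤ)) - b ^ 2 =
        -1 * b ^ 2 + p * (9 * (pr (P.erase p) : ℤ)) := by ring
      rw [this, Int.add_mul_emod_self_left]
    rw [jacobiSym.mod_left' e3, jacobiSym.mul_left, fam_neg_one hF, one_mul]
    apply jacobiSym.sq_one'
    rw [Int.gcd_comm]
    have := (Int.isCoprime_iff_gcd_eq_one).1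
      ((Prime.coprime_iff_not_dvd (Nat.prime_iff_prime_int.1 hpp)).2 hpb)
    exact this

/-- the factor at `3` -/
lemma fac_three {P : Finset ℕ} (hP : ∀ p ∈ P, Fam p) {D : ℕ} (hD : 0 < D) :
    ∃ c : ℤ, ∀ D1 ⊆ P, fac (3 * pr D1) D 3 = 2 * c := by
  set E := D / 3 ^ D.factorization 3 with hE
  have hE3 : ¬ 3 ∣ E := Nat.not_dvd_ordCompl Nat.prime_three hD.ne'
  have hu : jacobiSym (-(E : ℤ)) 3 = 1 ∨ jacobiSym (-(E : ℤ)) 3 = -1 := by
    apply jacobiSym.eq_one_or_neg_one
    have : Nat.Coprime E 3 := ((Nat.Prime.coprime_iff_not_dvd Nat.prime_three).2 hE3).symm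
    simpa [Int.gcd] using this
  have hval : ∀ D1 ⊆ P, fac (3 * pr D1) D 3 = 1 + jacobiSym (-(E : ℤ)) 3 := by
    intro D1 h1
    rw [fac, if_pos (Dvd.intro _ rfl), hh]
    congr 1
    split_ifs with h
    · rfl
    · rw [Nat.mul_div_cancel_left _ (by norm_num), ← hE]
      have : (-((pr D1 * E : ℕ) : ℤ)) = (pr D1 : ℤ) * (-(E : ℤ)) := by push_cast; ring
      rw [this, jacobiSym.mul_left, js_pr, Finset.prod_eq_one, one_mul]
      intro p hp
      have h3 := (fam_facts (hP p (h1 hp))).2.2.2.2.2.1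
      rw [jacobiSym.mod_left]
      have : (p : ℤ) % (3 : ℕ) = 1 := by push_cast; omega
      rw [this]
      exact jacobiSym.one_left 3
  rcases hu with h | h
  · exact ⟨1, fun D1 h1 => by rw [hval D1 h1, h]; norm_num⟩
  · exact ⟨0, fun D1 h1 => by rw [hval D1 h1, h]; norm_num⟩

/-- the condition in terms of `od D` -/
lemma cond_iff {P : Finset ℕ} (hP : ∀ p ∈ P, Fam p) {b : ℤ} {D : ℕ} (hD : 0 < D)
    (hDD : (D : ℤ) = 9 * (pr P : ℤ) - b ^ 2) (h3 : ¬ 3 ∣ D) :
    ((∀ l ∈ S3 D, Even (D.factorization l)) ∧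
      ∀ p ∈ P, ∏ l ∈ S3 D, (ee P l p) ^ (D.factorization l / 2) = 1) ↔
    ∃ y : ℕ, od D = y ^ 2 ∧ ∀ p ∈ P, jacobiSym y p = 1 := by
  have hodd : ∀ l ∈ S3 D, Odd l := by
    intro l hl
    obtain ⟨-, -, h2, hlp, -⟩ := mem_S3 hl
    exact hlp.odd_of_ne_two h2
  have hod : od D = ∏ l ∈ S3 D, l ^ D.factorization l := by
    have hdec := D_decomp hD
    rw [Nat.factorization_eq_zero_of_not_dvd h3, pow_zero, one_mul, ← mul_assoc] at hdec
    rw [od]
    apply Nat.div_eq_of_eq_mul_right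
    · positivity
    · exact hdec
  have key : (∀ l ∈ S3 D, Even (D.factorization l)) → ∀ p ∈ P,
      ∏ l ∈ S3 D, (ee P l p) ^ (D.factorization l / 2) =
      jacobiSym ((∏ l ∈ S3 D, l ^ (D.factorization l / 2) : ℕ) : ℤ) p := by
    intro hev p hp
    push_cast
    rw [js_prod_left]
    refine Finset.prod_congr rfl fun l hl => ?_
    rw [jacobiSym.pow_left, ee, if_neg, js_swap (hP p hp) (hodd l hl)]
    rintro rfl
    obtain ⟨D', hD1, hD2, hD3, hD4⟩ := fam_div hP hD hDD hp (mem_S3 hl).2.2.2.2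
    have := hev l hl
    rw [hD3] at this
    exact absurd this (by decide)
  constructor
  · rintro ⟨hev, h⟩
    refine ⟨∏ l ∈ S3 D, l ^ (D.factorization l / 2), ?_, fun p hp => ?_⟩
    · rw [hod, ← Finset.prod_pow]
      refine Finset.prod_congr rfl fun l hl => ?_
      rw [← pow_mul, Nat.div_mul_cancel (even_iff_two_dvd.1 (hev l hl))]
    · rw [← key hev p hp]
      exact h p hp
  · rintro ⟨y, hy, hyp⟩
    have hdec : D = 2 ^ D.factorization 2 * (7 ^ D.factorization 7 * y ^ 2) := by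
      have hdec := D_decomp hD
      rwa [Nat.factorization_eq_zero_of_not_dvd h3, pow_zero, one_mul, ← hod, hy] at hdec
    have hy0 : y ≠ 0 := by
      rintro rfl
      rw [hdec] at hD
      simp at hD
    have hfac : ∀ l ∈ S3 D, D.factorization l = 2 * y.factorization l := by
      intro l hl
      obtain ⟨-, h7, h2, hlp, -⟩ := mem_S3 hl
      conv_lhs => rw [hdec]
      rw [Nat.factorization_mul (by positivity) (by positivity),
        Nat.factorization_mul (by positivity) (by positivity), Nat.factorization_pow,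
        Nat.factorization_pow, Nat.factorization_pow]
      simp only [Finsupp.add_apply, Finsupp.smul_apply, smul_eq_mul]
      rw [Nat.Prime.factorization Nat.prime_two, Nat.Prime.factorization (by norm_num : Nat.Prime 7),
        Finsupp.single_eq_of_ne h2, Finsupp.single_eq_of_ne h7]
      ring
    have hev : ∀ l ∈ S3 D, Even (D.factorization l) := fun l hl => by
      rw [hfac l hl]; exact even_two_mul _
    refine ⟨hev, fun p hp => ?_⟩
    rw [key hev p hp]
    have : ∏ l ∈ S3 D, l ^ (D.factorization l / 2) = y := by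
      have e : (∏ l ∈ S3 D, l ^ (D.factorization l / 2)) ^ 2 = y ^ 2 := by
        rw [← hy, hod, ← Finset.prod_pow]
        refine Finset.prod_congr rfl fun l hl => ?_
        rw [← pow_mul, Nat.div_mul_cancel (even_iff_two_dvd.1 (hev l hl))]
      exact Nat.pow_left_injective (n := 2) (by norm_num) e
    rw [this]
    exact hyp p hp

/-- GENb -/
theorem t_GENb : S_GENb := by
  intro P hP _ b _ _ D hD hDD _
  obtain ⟨n, hn, hn2⟩ := abs_main (ι := S3 D) (fun i => D.factorization i)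
    (fun i => jacobiSym (-3) i) (fun i p => ee P i p) P (fun i => s_unit i.2)
    (fun i p hp => ee_unit hP i.2 hp) (fun p hp => by
      rw [Finset.prod_coe_sort (S3 D) (fun l => (ee P l p) ^ (D.factorization l))]
      exact ee_total hP hD hDD hp)
  have h3prod : ∀ D1 ∈ P.powerset, ∏ l ∈ S3 D, fac (3 * pr D1) D l =
      ∏ i : S3 D, ∑ j ∈ range (D.factorization i + 1),
        (jacobiSym (-3) i * ∏ p ∈ D1, ee P i p) ^ j := by
    intro D1 hD1
    rw [← Finset.prod_coe_sort]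
    refine Finset.prod_congr rfl fun i _ => ?_
    exact fac_eq hP hD hDD i.2 (Finset.mem_powerset.1 hD1)
  by_cases hb3 : (3 : ℤ) ∣ b
  · have hD3 : 3 ∣ D := by
      obtain ⟨c, rfl⟩ := hb3
      have : (3 : ℤ) ∣ D := ⟨3 * pr P - 3 * c ^ 2, by rw [hDD]; ring⟩
      exact_mod_cast this
    have hmem : 3 ∈ (D.primeFactors.erase 2).erase 7 := by
      rw [Finset.mem_erase, Finset.mem_erase, Nat.mem_primeFactors]
      exact ⟨by norm_num, by norm_num, Nat.prime_three, hD3, hD.ne'⟩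
    obtain ⟨c, hc⟩ := fac_three hP hD
    refine ⟨2 * c * n, ?_, ?_⟩
    · have : ∀ D1 ∈ P.powerset, ∏ l ∈ (D.primeFactors.erase 2).erase 7, fac (3 * pr D1) D l =
          2 * c * ∏ i : S3 D, ∑ j ∈ range (D.factorization i + 1),
        (jacobiSym (-3) i * ∏ p ∈ D1, ee P i p) ^ j := by
        intro D1 hD1
        rw [← Finset.mul_prod_erase _ _ hmem, hc D1 (Finset.mem_powerset.1 hD1), ← h3prod D1 hD1]
        rfl
      rw [Finset.sum_congr rfl this, ← Finset.mul_sum, hn]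
      ring
    · constructor
      · intro h
        exfalso
        rw [mul_assoc] at h
        exact (Int.not_even_iff_odd.2 h) (even_two_mul _)
      · rintro ⟨h, -⟩
        exact absurd hb3 h
  · have hD3 : ¬ 3 ∣ D := by
      intro h
      apply hb3
      have : (3 : ℤ) ∣ b ^ 2 := by
        have h1 : (3 : ℤ) ∣ D := by exact_mod_cast h
        have : b ^ 2 = 9 * (pr P : ℤ) - D := by rw [hDD]; ring
        rw [this]
        exact dvd_sub ⟨3 * pr P, by ring⟩ h1
      exact Int.prime_three.dvd_of_dvd_pow this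
    have hnm : 3 ∉ (D.primeFactors.erase 2).erase 7 := by
      rw [Finset.mem_erase, Finset.mem_erase, Nat.mem_primeFactors]
      rintro ⟨-, -, -, h, -⟩
      exact hD3 h
    have hS : (D.primeFactors.erase 2).erase 7 = S3 D := by
      rw [S3, Finset.erase_eq_of_notMem hnm]
    refine ⟨n, ?_, ?_⟩
    · rw [hS, Finset.sum_congr rfl h3prod, hn]
    · rw [hn2, ← cond_iff hP hD hDD hD3]
      constructor
      · rintro ⟨h1, h2⟩
        refine ⟨hb3, fun l hl => h1 ⟨l, hl⟩, fun p hp => ?_⟩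
        rw [← h2 p hp, ← Finset.prod_coe_sort]
      · rintro ⟨-, h1, h2⟩
        refine ⟨fun i => h1 i.1 i.2, fun p hp => ?_⟩
        exact (Finset.prod_coe_sort (S3 D) (fun l => ee P l p ^ (D.factorization l / 2))).trans
          (h2 p hp)

end Pool.Agent.Z927
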